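import Pool.Agent.U981.MH.Eng
import Pool.Agent.NH29.GH.Fmt

/-!
# At most `2 r` points carry the defects of the points of degree at most `r`

Let `k` be a number field, `V ⊆ ℙ^M` a closed subset over `k` (given by any set of forms; of any
dimension, possibly singular or reducible), `r ≥ 1`, let `d_1, …, d_q` be positive integers and `P` a
finite set of primes. `N_P (F, x)` and `m_P (F, x)` are the counting function (places not over `P`)
and the proximity function (infinite places and places over `P`) of the hypersurface `F = 0` at the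
algebraic point `x`, `h` is the absolute logarithmic height. For the set `S` of the places in the
second group, `m_P (F, x) = ∑_{v ∈ S} λ_{F, v} (x)`, and every finite set of places is contained in
such a set `S`.

THEOREM. There is a constant `A > 0` such that for ALL families of forms `F_1, …, F_q` over `k` of
degrees `d_1, …, d_q`, all extensions `E` of `k` of degree at most `r` and all `E`-points `x` of `V`:

(I) There are `2 r` points `y_1, …, y_{2 r}` of `V` (over the algebraic closure) such that every `F_b`
which vanishes at none of them (and not at `x`) has a large counting function: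
`N_P (F_b, x) ≥ h (x) / A - 1 - ∑ h (F_c)`, and so
`m_P (F_b, x) ≤ (d_b - 1 / A) h (x) + 1 + 2 ∑ h (F_c)`.

(II) If no `2 r` points of `V` meet all the hypersurfaces `F_b = 0`, and `x` is off `D = ∑ F_b`, then
`h (x) ≤ A (1 + ∑ h (F_b) + N_P (D, x))` and
`m_P (D, x) ≤ (∑ d_b - 1 / A) h (x) + 1 + 2 ∑ h (F_b)`.

(III) If every point of `V` is on at most `m` of the hypersurfaces, then at most `2 r m` of the `F_b`
with `F_b (x) ≠ 0` have `N_P (F_b, x) < h (x) / A - 1 - ∑ h (F_c)`; if `x` is off `D` then
`m_P (D, x) ≤ (∑ d_b - (q - 2 r m) / A) h (x) + q (1 + 2 ∑ h (F_b))`.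

There is no exceptional set and no discriminant term, and the constants do not depend on the field
`E` and on the hypersurfaces: they may vary with the point (moving targets), the dependence on their
heights is linear. In particular, if no `2 r` points of `V` meet all the hypersurfaces (for instance
`q ≥ 2 r n + 1` hypersurfaces in general position on `V`, `dim V = n`), then there are only finitely
many `(D, S)`-integral points of degree at most `r` on `V`, for all `S`, and their heights are at most
`A (1 + ∑ h (F_b))`. The number `2 r` is best possible, for `V = ℙ^1`, all `r` and `q = 2 r` rational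
points (over a suitable `k`), and for `r = 1`, `V = ℙ^2` and 4 lines.

Proof. If (II) fails there are `t_s`, `x_s` with `h (x_s)` much larger than the heights of the
coefficients `t_s` of the forms and the counting functions. The norms of the `F_b (x_s)` are almost
units, and the theorem on moving unit equations shows that in an ultraproduct the quotients of the
products `u_b = ∏_l F_b (x^{(l)})` over the conjugates are, up to constants from the algebraically
closed field `K` of the small elements, multiplicatively independent or even algebraically independent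
(this part is the engine `NH29.GH` of the starting library). Now let `v_1, v_2` be valuations over `K`
under which one of the `u_b / u_a` has positive resp. negative value and independent ones have value
zero. The `r` conjugates specialise to `r` points of `V` at `v_1` and to `r` points at `v_2`. Some
`F_b` is not zero at all these `2 r` points, and then `u_b` is minimal for both of them, which is a
contradiction. If all `u_b / u_a` are constant then so is the point. The limit forms satisfy the
condition too, because it is an open condition on the coefficients, over `k`, given by finitely many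
polynomials (elimination and the basis theorem). (I) is (II) for the families of those `F_b` which
have a small counting function at `x`, and (III) follows from (I).
-/

set_option autoImplicit false

namespace Pool.Agent.Results.MP_651af7_nt.DefectsOfHypersurfaces

open MvPolynomial Module Height NumberField

variable {k : Type} [Field k] {M q : ℕ}

/-- The vector `y` over an extension of `k` represents a point of the closed subset of `ℙ^M` given by
the forms in `V`. -/
structure IsPoint {L : Type} [Field L] [Algebra k L] (V : Set (MvPolynomial (Fin (M + 1)) k))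
    (y : Fin (M + 1) → L) : Prop where
  ne_zero : y ≠ 0
  zero : ∀ H ∈ V, aeval y H = 0

/-- The family of the coefficients of a form of degree `e`. -/
def coeffs (e : ℕ) (F : MvPolynomial (Fin (M + 1)) k) :
    {β : Fin (M + 1) →₀ ℕ // β.degree = e} → k :=
  fun β => coeff β.1 F

/-- The absolute logarithmic height of a point of projective space. -/
noncomputable def absHeight {E : Type} [Field E] [NumberField E] {ι : Type} (x : ι → E) : ℝ :=
  logHeight x / (finrank ℚ E : ℝ)

/-- The sum of the absolute logarithmic heights of the forms `F b` of degrees `d b`. -/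
noncomputable def formsHeight [NumberField k] (d : Fin q → ℕ)
    (F : Fin q → MvPolynomial (Fin (M + 1)) k) : ℝ :=
  ∑ b, absHeight (coeffs (d b) (F b))

/-- The local height `log (|F|_w |x|_w ^ e / |F (x)|_w)` of the point `x` over `E`, with respect to
the hypersurface `F = 0`, where `F` is a form of degree `e` over `k`, and `w` an absolute value of
`E`. -/
noncomputable def localHeight {E : Type} [Field E] [Algebra k E] (w : E → ℝ) (e : ℕ)
    (F : MvPolynomial (Fin (M + 1)) k) (x : Fin (M + 1) → E) : ℝ :=
  Real.log ((⨆ β, w (algebraMap k E (coeffs e F β))) * (⨆ a, w (x a)) ^ e / w (aeval x F))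

/-- The counting function of the hypersurface `F = 0` at the point `x` over `E`: the sum over the
finite places which are not over primes in `P`, divided by the degree of `E`. -/
noncomputable def counting {E : Type} [Field E] [NumberField E] [Algebra k E]
    (P : Finset ℕ) (e : ℕ) (F : MvPolynomial (Fin (M + 1)) k) (x : Fin (M + 1) → E) : ℝ :=
  (∑ᶠ w : {w : FinitePlace E // ∀ p ∈ P, w (p : E) = 1}, localHeight w.1 e F x) /
    (finrank ℚ E : ℝ)

/-- The proximity function of the hypersurface `F = 0` at the point `x` over `E`: the sum over the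
infinite places and the places over primes in `P`, divided by the degree of `E`. -/
noncomputable def proximity {E : Type} [Field E] [NumberField E] [Algebra k E]
    (P : Finset ℕ) (e : ℕ) (F : MvPolynomial (Fin (M + 1)) k) (x : Fin (M + 1) → E) : ℝ :=
  (∑ w : InfinitePlace E, (w.mult : ℝ) * localHeight w e F x +
    ∑ᶠ w : {w : FinitePlace E // ¬ ∀ p ∈ P, w (p : E) = 1}, localHeight w.1 e F x) /
    (finrank ℚ E : ℝ)

/-- No `n` points of `V` over the algebraic closure meet all the hypersurfaces `F b = 0`: at least one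
of them contains none of the points. -/
def NotMet (V : Set (MvPolynomial (Fin (M + 1)) k)) (F : Fin q → MvPolynomial (Fin (M + 1)) k)
    (n : ℕ) : Prop :=
  ∀ y : Fin n → Fin (M + 1) → AlgebraicClosure k, (∀ j, IsPoint V (y j)) →
    ∃ b, ∀ j, aeval (y j) (F b) ≠ 0

section Proof

open Pool.Agent.NH29.GN (Idx Mon fv val)
open Pool.Agent.NH29.GH
open Pool.Agent.U981.MH

theorem sum_eq {κ E : Type} [Field κ] [Field E] [Algebra κ E] {e : ℕ}
    {F : MvPolynomial (Fin (M + 1)) κ} (hF : F.IsHomogeneous e) (x : Fin (M + 1) → E) :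
    ∑ β : Mon M e, algebraMap κ E (coeff β.1 F) * val x β.1 = aeval x F := by
  classical
  rw [aeval_def]
  exact (Pool.Agent.NH29.GN.Stc.eval₂_form (algebraMap κ E) x hF).symm

theorem fv_eq {κ E : Type} [Field κ] [Field E] [Algebra κ E] {d : Fin q → ℕ}
    {F : Fin q → MvPolynomial (Fin (M + 1)) κ} (hF : ∀ i, (F i).IsHomogeneous (d i))
    (x : Fin (M + 1) → E) (b : Fin q) :
    fv (K := κ) (L := E) (fun s : Idx M d => coeff s.2.1 (F s.1)) x b = aeval x (F b) :=
  sum_eq (hF b) x

theorem counting_eq {κ E : Type} [Field κ] [Field E] [NumberField E] [Algebra κ E] (P : Finset ℕ)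
    {e : ℕ} {F : MvPolynomial (Fin (M + 1)) κ} (hF : F.IsHomogeneous e) (x : Fin (M + 1) → E) :
    counting P e F x =
      cntP P (fun β : Mon M e => algebraMap κ E (coeff β.1 F)) x / (finrank ℚ E : ℝ) := by
  unfold counting cntP localHeight
  rw [sum_eq hF]
  rfl

theorem proximity_eq {κ E : Type} [Field κ] [Field E] [NumberField E] [Algebra κ E]
    (P : Finset ℕ) {e : ℕ} {F : MvPolynomial (Fin (M + 1)) κ} (hF : F.IsHomogeneous e)
    (x : Fin (M + 1) → E) :
    proximity P e F x =
      proxP P (fun β : Mon M e => algebraMap κ E (coeff β.1 F)) x / (finrank ℚ E : ℝ) := by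
  unfold proximity proxP localHeight
  rw [sum_eq hF]
  rfl

theorem logHeight_ext' {κ E : Type} [Field κ] [NumberField κ] [Field E] [NumberField E]
    [Algebra κ E] (e : ℕ) (x : Mon M e → κ) :
    logHeight (fun β => algebraMap κ E (x β)) / (finrank ℚ E : ℝ) =
      logHeight x / (finrank ℚ κ : ℝ) := by
  have : Nonempty (Mon M e) := ⟨Pool.Agent.NH29.GN.Hi.mon0 M e⟩
  have h1 := Ext.pos κ E
  have h2 := fin_pos κ
  rw [Pool.Agent.Helper259.HtExt.logHeight_ext, Ext.deg κ E]
  field_simp

/-- the counting function is not negative -/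
theorem counting_nonneg [NumberField k] {P : Finset ℕ} (hP : ∀ p ∈ P, p ≠ 0) {e : ℕ}
    {F : MvPolynomial (Fin (M + 1)) k} (hF : F.IsHomogeneous e) {E : Type} [Field E] [NumberField E]
    [Algebra k E] {x : Fin (M + 1) → E} (hx : aeval x F ≠ 0) : 0 ≤ counting P e F x := by
  rw [counting_eq P hF]
  refine div_nonneg ?_ (Nat.cast_nonneg _)
  have h1 := (cnp E P hP M 1 (fun _ => e)
    (fun s : Idx M (fun _ : Fin 1 => e) => algebraMap k E (coeff s.2.1 F)) x 0 0
    (by
      rw [fv_self (κ := k) (E := E) (fun s : Idx M (fun _ : Fin 1 => e) => coeff s.2.1 F)]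
      rw [fv_eq (q := 1) (F := fun _ => F) (fun _ => hF)]
      exact hx)
    (by
      rw [fv_self (κ := k) (E := E) (fun s : Idx M (fun _ : Fin 1 => e) => coeff s.2.1 F)]
      rw [fv_eq (q := 1) (F := fun _ => F) (fun _ => hF)]
      exact hx)).1
  exact h1

/-- the first main theorem -/
theorem first_main [NumberField k] (P : Finset ℕ) {e : ℕ}
    {F : MvPolynomial (Fin (M + 1)) k} (hF : F.IsHomogeneous e) {E : Type} [Field E] [NumberField E]
    [Algebra k E] {x : Fin (M + 1) → E} (hx : aeval x F ≠ 0) :
    proximity P e F x + counting P e F x = absHeight (coeffs e F) + e * absHeight x := by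
  have h5 := fmt E P M e (fun β : Mon M e => algebraMap k E (coeff β.1 F)) x (by
    rw [sum_eq hF]
    exact hx)
  rw [counting_eq P hF, proximity_eq P hF, ← add_div, h5, add_div, logHeight_ext' e]
  unfold absHeight
  rw [mul_div_assoc]
  rfl

/-- the inequality for one family -/
theorem one [NumberField k] (r : ℕ) {V : Set (MvPolynomial (Fin (M + 1)) k)}
    (hV : ∀ H ∈ V, ∃ e, H.IsHomogeneous e) {d : Fin q → ℕ} (hd : ∀ i, 1 ≤ d i)
    {P : Finset ℕ} (hP : ∀ p ∈ P, p ≠ 0) :
    ∃ A : ℝ, 0 ≤ A ∧ ∀ F : Fin q → MvPolynomial (Fin (M + 1)) k,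
      (∀ b, (F b).IsHomogeneous (d b)) → NotMet V F (2 * r) →
      ∀ (E : Type) [Field E] [NumberField E] [Algebra k E], finrank k E ≤ r →
      ∀ x : Fin (M + 1) → E, IsPoint V x → (∀ b, aeval x (F b) ≠ 0) →
      absHeight x ≤ A * (1 + formsHeight d F + ∑ b, counting P (d b) (F b) x) := by
  obtain ⟨A, hA0, hA⟩ := mh (r := r) hV hd P hP
  refine ⟨A, hA0, fun F hF hN E _ _ _ hE x hx hxo => ?_⟩
  have hfv := fv_eq (E := E) hF x
  have h2 := hA (fun s : Idx M d => coeff s.2.1 (F s.1)) (by
    intro y hy0 hyV
    obtain ⟨b, hb⟩ := hN y fun j => ⟨hy0 j, hyV j⟩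
    refine ⟨b, fun j => ?_⟩
    rw [fv_self (κ := k) (E := AlgebraicClosure k) (fun s : Idx M d => coeff s.2.1 (F s.1)),
      fv_eq hF]
    exact hb j) E hE x ⟨hx.ne_zero, fun H hH => hx.zero H hH, fun b => by
      rw [hfv]
      exact hxo b⟩
  have hcn : ∀ b, counting P (d b) (F b) x =
      cntP P (fun β : Mon M (d b) => algebraMap k E (coeff β.1 (F b))) x / (finrank ℚ E : ℝ) :=
    fun b => counting_eq P (hF b) x
  rw [Finset.sum_congr rfl fun b _ => hcn b]
  exact h2

/-- a point over an extension of finite degree gives a point over the algebraic closure -/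
theorem exists_point [NumberField k] {V : Set (MvPolynomial (Fin (M + 1)) k)} {E : Type} [Field E]
    [NumberField E] [Algebra k E] {x : Fin (M + 1) → E} (hx : IsPoint V x) :
    ∃ y : Fin (M + 1) → AlgebraicClosure k, IsPoint V y := by
  have : FiniteDimensional k E := Module.Finite.of_restrictScalars_finite ℚ k E
  let φ : E →ₐ[k] AlgebraicClosure k := IsAlgClosed.lift
  refine ⟨fun a => φ (x a), fun h => hx.ne_zero ?_, fun H hH => ?_⟩
  · funext a
    have h1 : φ (x a) = 0 := congrFun h a
    rwa [map_eq_zero] at h1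
  · have h1 := hx.zero H hH
    have h2 : aeval (fun a => φ (x a)) H = φ (aeval x H) := by
      rw [← AlgHom.comp_apply, comp_aeval]
    rw [h2, h1, map_zero]

/-- (I), for the counting functions -/
theorem defects [NumberField k] (r : ℕ) {V : Set (MvPolynomial (Fin (M + 1)) k)}
    (hV : ∀ H ∈ V, ∃ e, H.IsHomogeneous e) {d : Fin q → ℕ} (hd : ∀ i, 1 ≤ d i)
    {P : Finset ℕ} (hP : ∀ p ∈ P, p ≠ 0) :
    ∃ A : ℝ, 0 < A ∧ ∀ F : Fin q → MvPolynomial (Fin (M + 1)) k,
      (∀ b, (F b).IsHomogeneous (d b)) →
      ∀ (E : Type) [Field E] [NumberField E] [Algebra k E], finrank k E ≤ r →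
      ∀ x : Fin (M + 1) → E, IsPoint V x →
      ∃ y : Fin (2 * r) → Fin (M + 1) → AlgebraicClosure k, (∀ j, IsPoint V (y j)) ∧
        ∀ b, aeval x (F b) ≠ 0 → (∀ j, aeval (y j) (F b) ≠ 0) →
          absHeight x / A - 1 - formsHeight d F ≤ counting P (d b) (F b) x := by
  classical
  have h1 : ∀ B : Finset (Fin q), ∃ A : ℝ, 0 ≤ A ∧ ∀ F : Fin q → MvPolynomial (Fin (M + 1)) k,
      (∀ b, (F b).IsHomogeneous (d b)) →
      (∀ y : Fin (2 * r) → Fin (M + 1) → AlgebraicClosure k, (∀ j, IsPoint V (y j)) →
        ∃ b ∈ B, ∀ j, aeval (y j) (F b) ≠ 0) →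
      ∀ (E : Type) [Field E] [NumberField E] [Algebra k E], finrank k E ≤ r →
      ∀ x : Fin (M + 1) → E, IsPoint V x → (∀ b ∈ B, aeval x (F b) ≠ 0) →
      absHeight x ≤ A * (1 + formsHeight d F + ∑ b ∈ B, counting P (d b) (F b) x) := by
    intro B
    obtain ⟨A, hA0, hA⟩ := one (q := B.card) r hV (d := fun i => d (B.equivFin.symm i))
      (fun i => hd _) hP
    refine ⟨A, hA0, fun F hF hN E _ _ _ hE x hx hxo => ?_⟩
    have h2 := hA (fun i => F (B.equivFin.symm i)) (fun i => hF _) (fun y hy => by
      obtain ⟨b, hb, h3⟩ := hN y hy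
      refine ⟨B.equivFin ⟨b, hb⟩, fun j => ?_⟩
      change aeval (y j) (F (B.equivFin.symm (B.equivFin ⟨b, hb⟩))) ≠ 0
      rw [Equiv.symm_apply_apply]
      exact h3 j) E hE x hx (fun i => hxo _ (B.equivFin.symm i).2)
    refine h2.trans (mul_le_mul_of_nonneg_left ?_ hA0)
    have h3 : ∀ g : Fin q → ℝ, ∑ i, g (B.equivFin.symm i) = ∑ b ∈ B, g b := by
      intro g
      rw [← Finset.sum_coe_sort B]
      exact Equiv.sum_comp B.equivFin.symm fun b : B => g b.1
    have h4 : formsHeight (fun i => d (B.equivFin.symm i)) (fun i => F (B.equivFin.symm i)) ≤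
        formsHeight d F := by
      unfold formsHeight
      rw [h3 fun b => absHeight (coeffs (d b) (F b))]
      exact Finset.sum_le_sum_of_subset_of_nonneg (Finset.subset_univ _)
        fun b _ _ => nH_nonneg _
    rw [h3 fun b => counting P (d b) (F b) x]
    linarith
  choose A hA0 hA using h1
  have hS0 : 0 ≤ ∑ B, A B := Finset.sum_nonneg fun B _ => hA0 B
  refine ⟨1 + (q + 1) * ∑ B, A B, by positivity, fun F hF E _ _ _ hE x hx => ?_⟩
  obtain ⟨A', hA'⟩ : ∃ A' : ℝ, A' = 1 + (q + 1) * ∑ B, A B := ⟨_, rfl⟩
  rw [← hA']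
  have hA'0 : 0 < A' := by
    rw [hA']
    positivity
  let B : Finset (Fin q) := Finset.univ.filter fun b => aeval x (F b) ≠ 0 ∧
    counting P (d b) (F b) x < absHeight x / A' - 1 - formsHeight d F
  by_contra hcon
  push Not at hcon
  have hN : ∀ y : Fin (2 * r) → Fin (M + 1) → AlgebraicClosure k, (∀ j, IsPoint V (y j)) →
      ∃ b ∈ B, ∀ j, aeval (y j) (F b) ≠ 0 := by
    intro y hy
    obtain ⟨b, hb1, hb2, hb3⟩ := hcon y hy
    exact ⟨b, Finset.mem_filter.2 ⟨Finset.mem_univ _, hb1, hb3⟩, hb2⟩
  obtain ⟨y₀, hy₀⟩ := exists_point hx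
  obtain ⟨b₀, hb₀, -⟩ := hN (fun _ => y₀) fun _ => hy₀
  have h2 := hA B F hF hN E hE x hx fun b hb => (Finset.mem_filter.1 hb).2.1
  have h3 : ∀ b ∈ B, counting P (d b) (F b) x ≤ absHeight x / A' - 1 - formsHeight d F :=
    fun b hb => (Finset.mem_filter.1 hb).2.2.le
  have hH0 : 0 ≤ formsHeight d F := Finset.sum_nonneg fun b _ => nH_nonneg _
  have h4 : 0 ≤ absHeight x / A' - 1 - formsHeight d F :=
    (counting_nonneg hP (hF b₀) (Finset.mem_filter.1 hb₀).2.1).trans (h3 b₀ hb₀)
  have h5 : ∑ b ∈ B, counting P (d b) (F b) x ≤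
      q * (absHeight x / A' - 1 - formsHeight d F) := by
    refine (Finset.sum_le_sum h3).trans ?_
    rw [Finset.sum_const, nsmul_eq_mul]
    refine mul_le_mul_of_nonneg_right ?_ h4
    exact_mod_cast (Finset.card_le_univ B).trans (by rw [Fintype.card_fin])
  have h6 : A B ≤ ∑ B, A B := Finset.single_le_sum (fun B _ => hA0 B) (Finset.mem_univ B)
  have h7 : absHeight x / A' ≥ 1 := by linarith
  have h8 : absHeight x = A' * (absHeight x / A') := by
    field_simp
  have h9 : 1 + formsHeight d F + ∑ b ∈ B, counting P (d b) (F b) x ≤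
      (q + 1) * (absHeight x / A') := by
    nlinarith [mul_nonneg (Nat.cast_nonneg q : (0 : ℝ) ≤ q) hH0]
  have h10 : absHeight x ≤ (∑ B, A B) * ((q + 1) * (absHeight x / A')) := by
    refine h2.trans ((mul_le_mul_of_nonneg_left h9 (hA0 B)).trans ?_)
    exact mul_le_mul_of_nonneg_right h6 (by positivity)
  have h11 : A' * (absHeight x / A') ≤ (A' - 1) * (absHeight x / A') := by
    rw [← h8]
    refine h10.trans (le_of_eq ?_)
    rw [hA']
    ring
  nlinarith

end Proof

/-- The theorem. -/
theorem result {k : Type} [Field k] [NumberField k] {M q r : ℕ}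
    -- the variety
    (V : Set (MvPolynomial (Fin (M + 1)) k)) (hV : ∀ H ∈ V, ∃ e, H.IsHomogeneous e)
    -- the degrees and the places
    (d : Fin q → ℕ) (hd : ∀ b, 0 < d b) (P : Finset ℕ) (hP : ∀ p ∈ P, p.Prime) :
    ∃ A : ℝ, 0 < A ∧
      -- all hypersurfaces and all points of degree at most `r`
      ∀ F : Fin q → MvPolynomial (Fin (M + 1)) k, (∀ b, (F b).IsHomogeneous (d b)) →
      ∀ (E : Type) [Field E] [NumberField E] [Algebra k E], finrank k E ≤ r →
      ∀ x : Fin (M + 1) → E, IsPoint V x →
      -- (I)
      (∃ y : Fin (2 * r) → Fin (M + 1) → AlgebraicClosure k, (∀ j, IsPoint V (y j)) ∧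
        ∀ b, aeval x (F b) ≠ 0 → (∀ j, aeval (y j) (F b) ≠ 0) →
          absHeight x / A - 1 - formsHeight d F ≤ counting P (d b) (F b) x ∧
          proximity P (d b) (F b) x ≤ (d b - 1 / A) * absHeight x + 1 + 2 * formsHeight d F) ∧
      -- (II)
      (NotMet V F (2 * r) → (∀ b, aeval x (F b) ≠ 0) →
        absHeight x ≤ A * (1 + formsHeight d F + ∑ b, counting P (d b) (F b) x) ∧
        ∑ b, proximity P (d b) (F b) x ≤
          (∑ b, (d b : ℝ) - 1 / A) * absHeight x + 1 + 2 * formsHeight d F) ∧
      -- (III)
      ∀ m : ℕ, (∀ y : Fin (M + 1) → AlgebraicClosure k, IsPoint V y →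
          {b | aeval y (F b) = 0}.ncard ≤ m) →
        {b | aeval x (F b) ≠ 0 ∧
          counting P (d b) (F b) x < absHeight x / A - 1 - formsHeight d F}.ncard ≤ 2 * r * m ∧
        ((∀ b, aeval x (F b) ≠ 0) → ∑ b, proximity P (d b) (F b) x ≤
          (∑ b, (d b : ℝ) - (q - 2 * r * m) / A) * absHeight x + q * (1 + 2 * formsHeight d F)) := by
  classical
  have hP0 : ∀ p ∈ P, p ≠ 0 := fun p hp => (hP p hp).ne_zero
  obtain ⟨A, hA0, hA⟩ := defects r hV hd hP0
  refine ⟨A, hA0, fun F hF E _ _ _ hE x hx => ?_⟩
  obtain ⟨y, hy, hyb⟩ := hA F hF E hE x hx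
  have hH0 : 0 ≤ formsHeight d F :=
    Finset.sum_nonneg fun b _ => Pool.Agent.NH29.GH.nH_nonneg _
  have hle : ∀ b, absHeight (coeffs (d b) (F b)) ≤ formsHeight d F := fun b =>
    Finset.single_le_sum (f := fun b => absHeight (coeffs (d b) (F b)))
      (fun b _ => Pool.Agent.NH29.GH.nH_nonneg _) (Finset.mem_univ b)
  have hx0 : 0 ≤ absHeight x := Pool.Agent.NH29.GH.nH_nonneg _
  have hone : (1 : ℝ) / A * absHeight x = absHeight x / A := by
    rw [one_div, inv_mul_eq_div]
  have hprox : ∀ b, aeval x (F b) ≠ 0 →
      absHeight x / A - 1 - formsHeight d F ≤ counting P (d b) (F b) x →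
      proximity P (d b) (F b) x ≤ (d b - 1 / A) * absHeight x + 1 + 2 * formsHeight d F := by
    intro b hb h1
    have h2 := first_main P (hF b) hb
    have h3 := hle b
    rw [sub_mul, hone]
    linarith
  have hIII : ∀ m : ℕ, (∀ y : Fin (M + 1) → AlgebraicClosure k, IsPoint V y →
        {b | aeval y (F b) = 0}.ncard ≤ m) →
      {b | aeval x (F b) ≠ 0 ∧
        counting P (d b) (F b) x < absHeight x / A - 1 - formsHeight d F}.ncard ≤
        2 * r * m := by
    intro m hm
    have h1 : {b | aeval x (F b) ≠ 0 ∧
        counting P (d b) (F b) x < absHeight x / A - 1 - formsHeight d F} ⊆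
        ⋃ j, {b | aeval (y j) (F b) = 0} := by
      rintro b ⟨hb1, hb2⟩
      by_contra hb3
      rw [Set.mem_iUnion] at hb3
      push Not at hb3
      exact absurd (hyb b hb1 hb3) (not_le.2 hb2)
    refine (Set.ncard_le_ncard h1 (Set.toFinite _)).trans ?_
    refine (Set.ncard_iUnion_le_of_fintype _).trans ?_
    refine (Finset.sum_le_sum fun j _ => hm (y j) (hy j)).trans ?_
    rw [Finset.sum_const, Finset.card_univ, Fintype.card_fin, smul_eq_mul]
  refine ⟨⟨y, hy, fun b hb1 hb2 => ⟨hyb b hb1 hb2, hprox b hb1 (hyb b hb1 hb2)⟩⟩, ?_, ?_⟩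
  · intro hN hxo
    obtain ⟨b, hb⟩ := hN y hy
    have h1 := hyb b (hxo b) hb
    have hc0 : ∀ b, 0 ≤ counting P (d b) (F b) x := fun b => counting_nonneg hP0 (hF b) (hxo b)
    have h2 : counting P (d b) (F b) x ≤ ∑ b, counting P (d b) (F b) x :=
      Finset.single_le_sum (f := fun b => counting P (d b) (F b) x) (fun b _ => hc0 b)
        (Finset.mem_univ b)
    have h3 : absHeight x / A ≤ 1 + formsHeight d F + ∑ b, counting P (d b) (F b) x := by
      linarith
    refine ⟨?_, ?_⟩
    · rw [div_le_iff₀ hA0] at h3
      linarith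
    · have h5 : ∑ b, proximity P (d b) (F b) x + ∑ b, counting P (d b) (F b) x =
          formsHeight d F + (∑ b, (d b : ℝ)) * absHeight x := by
        rw [← Finset.sum_add_distrib,
          Finset.sum_congr rfl fun b _ => first_main P (hF b) (hxo b), Finset.sum_add_distrib,
          Finset.sum_mul]
        rfl
      rw [sub_mul, hone]
      linarith
  · intro m hm
    refine ⟨hIII m hm, fun hxo => ?_⟩
    obtain ⟨B, hB⟩ : ∃ B : Finset (Fin q), B = Finset.univ.filter fun b =>
      counting P (d b) (F b) x < absHeight x / A - 1 - formsHeight d F := ⟨_, rfl⟩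
    have hBc : (B.card : ℝ) ≤ 2 * r * m := by
      have h1 := hIII m hm
      have h2 : {b | aeval x (F b) ≠ 0 ∧
          counting P (d b) (F b) x < absHeight x / A - 1 - formsHeight d F} = (B : Set (Fin q)) := by
        ext b
        rw [hB]
        simp [hxo b]
      rw [h2, Set.ncard_coe_finset] at h1
      exact_mod_cast h1
    have h1 : ∀ b, proximity P (d b) (F b) x ≤ d b * absHeight x + (1 + 2 * formsHeight d F) -
        (if b ∈ B then 0 else absHeight x / A) := by
      intro b
      by_cases hb : b ∈ B
      · rw [if_pos hb]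
        have h2 := first_main P (hF b) (hxo b)
        have h3 := counting_nonneg hP0 (hF b) (hxo b)
        have h4 := hle b
        linarith
      · rw [if_neg hb]
        have h2 : absHeight x / A - 1 - formsHeight d F ≤ counting P (d b) (F b) x := by
          rw [hB, Finset.mem_filter, not_and] at hb
          exact not_lt.1 (hb (Finset.mem_univ b))
        have h3 := hprox b (hxo b) h2
        rw [sub_mul, hone] at h3
        linarith
    refine (Finset.sum_le_sum fun b _ => h1 b).trans ?_
    rw [Finset.sum_sub_distrib, Finset.sum_add_distrib, Finset.sum_const, Finset.card_univ,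
      Fintype.card_fin, nsmul_eq_mul, ← Finset.sum_mul]
    have h2 : ∑ b, (if b ∈ B then (0 : ℝ) else absHeight x / A) =
        (q - B.card) * (absHeight x / A) := by
      have h3 : ∀ b, (if b ∈ B then (0 : ℝ) else absHeight x / A) =
          absHeight x / A - if b ∈ B then absHeight x / A else 0 := by
        intro b
        by_cases hb : b ∈ B
        · rw [if_pos hb, if_pos hb, sub_self]
        · rw [if_neg hb, if_neg hb, sub_zero]
      rw [Finset.sum_congr rfl fun b _ => h3 b, Finset.sum_sub_distrib, Finset.sum_const,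
        Finset.card_univ, Fintype.card_fin, nsmul_eq_mul, Finset.sum_ite_mem, Finset.univ_inter,
        Finset.sum_const, nsmul_eq_mul]
      ring
    rw [h2]
    have h3 : 0 ≤ absHeight x / A := div_nonneg hx0 hA0.le
    have h4 : ((q : ℝ) - 2 * r * m) / A * absHeight x = (q - 2 * r * m) * (absHeight x / A) := by
      ring
    rw [sub_mul (∑ b, (d b : ℝ)), h4]
    nlinarith [mul_le_mul_of_nonneg_right hBc h3]

end Pool.Agent.Results.MP_651af7_nt.DefectsOfHypersurfaces
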