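import Pool.Agent.S821.Coeffs
import Pool.Agent.N733.TG.K
import Pool.Agent.N760.IT.C
import Pool.Agent.Results.MP_651af7_nt.UniformCurves

/-!
# Vojta's inequality on all curves above the roots of polynomials with multiplicative coefficients

Let `r ≥ 2` and let `F_0, …, F_r` be multiplicative functions like Euler's function or the sum of the divisors. We show: for
almost all `(n_0, …, n_r) ∈ {1, …, N}^(r+1)`, with at most `N^(r+1) / (log N)^U` exceptions for every `U`, for all choices of
the signs the polynomial `± F_0(n_0) ± F_1(n_1) X ± … ± F_r(n_r) X^r` is irreducible over `ℚ`, and Vojta's inequality holds for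
all points above its roots on ALL curves over ALL number fields (in the setting of the starting theorem `UniformCurves`: all
finite maps to the line which are unramified outside `a_1, …, a_q`), with a constant which depends only on the curve and not
on `r`, `n`, `N`. The values of the functions `F_i` are taken with large multiplicities and have large common divisors (all
values of Euler's function but one are even), so the polynomials are far from being typical and are never primitive in general.

Proof. The starting theorem `UniformCurves` gives one exceptional set of algebraic numbers with a power saving among the numbers of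
degree `r` and bounded height. We pass to polynomials which need not be primitive (sum over the contents) and count the
reducible polynomials with a power saving by pairs of factors with bounded product of Mahler measures (`S821/Reducible`,
`S821/Coeffs`). Sets of integral vectors with a power saving are avoided by the values of multiplicative functions
(`Pool/Agent/N733/TG`).
-/

set_option autoImplicit false

namespace Pool.Agent.Results.MP_651af7_nt.MultiplicativeCoefficients

open Polynomial
open Pool.Agent.N733.TG (LM lm_totient lm_sigma)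
open Pool.Agent.N760.IT (lm_id)
open Pool.Agent.Results.MP_651af7_nt.UniformCurves (height coord proximity logDisc degree Numbers)

/-- the polynomial `∑ ε_i v_i X^i` with signs `ε_i` -/
noncomputable def pol {r : ℕ} (ε : Fin (r + 1) → ℤˣ) (v : Fin (r + 1) → ℕ) : ℤ[X] :=
  ∑ i : Fin (r + 1), C ((ε i : ℤ) * (v i : ℤ)) * X ^ (i : ℕ)

/-- **Vojta's inequality on all curves above the roots of polynomials with multiplicative coefficients.** Let `a_1, …, a_q` be
distinct rational numbers, `q ≥ 3`, and `0 ≤ κ ≤ q`, for example `κ = 2`. There is a set `E` of complex numbers with the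
following two properties.

(1) Let `r ≥ 2`, let `F_0, …, F_r` be multiplicative, positive, of at most polynomial growth, with `F_i p ≤ C p` at the large
primes and injective there, and let `U` be given. For all large `N` and all but at most `N^(r+1) / (log N)^U` of the
`n ∈ {1, …, N}^(r+1)`, for all signs `ε_i`, every complex root `x` of `∑ ε_i F_i(n_i) X^i` is an algebraic number of degree
(exactly) `r`, so that the polynomial is irreducible over `ℚ`, and is not in `E`.

(2) Let `A` be a Dedekind domain, finite over `ℚ[t]` and containing it (the ring of functions of a smooth affine curve over a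
number field which is finite over the `t`-line), of rank `N`, let `y_{j 0} = t - a_j, y_{j 1}, …, y_{j u_j}` be elements of
the radical of the ideal `(t - a_j)`, for example generators, and let `δ > 0`. Then there is a constant `C₀` such that for all
algebraic numbers `x` of degree at least two which are not in `E`, all points `P` of the curve with `t(P) = x`, all number
fields `L` over which `P` is defined and all finite sets `S` of primes
`m_S(F, P) + (q - (∑_j dim (A / (y_{j 0}, y_{j 1}, …))) / N - κ - δ) h(x) ≤ d(L) + ∑_{p ∈ S} log p + C₀`. -/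
theorem result :
    (∀ q : ℕ, 3 ≤ q → ∀ a : Fin q → ℚ, Function.Injective a → ∀ κ : ℝ, 0 ≤ κ → κ ≤ q →
    ∃ E : Set ℂ,
      (∀ r : ℕ, 2 ≤ r → ∀ F : Fin (r + 1) → ℕ → ℕ, (∀ i, LM (F i)) → ∀ U : ℕ, ∃ N₀ : ℕ, ∀ N : ℕ, N₀ ≤ N →
        ({n : Fin (r + 1) → ℕ | (∀ i, 1 ≤ n i ∧ n i ≤ N) ∧ ¬ ∀ (ε : Fin (r + 1) → ℤˣ) (x : ℂ),
          aeval x (pol ε fun i => F i (n i)) = 0 →
          (∃ f : ℤ[X], Irreducible f ∧ f.natDegree = r ∧ aeval x f = 0) ∧ x ∉ E}.ncard : ℝ) ≤
          (N : ℝ) ^ (r + 1) / Real.log N ^ U) ∧
      ∀ (A : Type) [CommRing A] [IsDedekindDomain A] [Algebra ℚ A] [Algebra ℚ[X] A]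
        [IsScalarTower ℚ ℚ[X] A] [Module.Finite ℚ[X] A] [FaithfulSMul ℚ[X] A]
        (u : Fin q → ℕ) (y : ∀ j, Fin (u j + 1) → A),
        (∀ j, y j 0 = coord A - algebraMap ℚ[X] A (C (a j))) →
        (∀ j i, y j i ∈ (Ideal.span {coord A - algebraMap ℚ[X] A (C (a j))}).radical) →
        ∀ δ : ℝ, 0 < δ → ∃ C₀ : ℝ,
          ∀ x : ℂ, x ∉ E → ∀ f : ℤ[X], Irreducible f → 2 ≤ f.natDegree → aeval x f = 0 →
          ∀ (L : IntermediateField ℚ ℂ) [NumberField L] (φ : A →+* L), (φ (coord A) : ℂ) = x →
          ∀ S : Finset ℕ, (∀ p ∈ S, p.Prime) →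
            proximity S u y L φ + (degree u y - κ - δ) * height f ≤
              logDisc L + ∑ p ∈ S, Real.log p + C₀) ∧
    LM (fun m => m) ∧ LM Nat.totient ∧ LM (fun m => ∑ d ∈ m.divisors, d) := by
  refine ⟨fun q hq a ha κ hκ0 hκ => ?_, lm_id, lm_totient, lm_sigma⟩
  obtain ⟨c, -, h⟩ := UniformCurves.result 1 one_pos
  obtain ⟨E, hE1, hE2⟩ := h q hq a ha κ hκ
  refine ⟨E, fun r hr F hF U => ?_, hE2⟩
  obtain ⟨hlt, hcnt⟩ := hE1 r hr
  have hlt := hlt hκ0
  have hr0 : (0 : ℝ) < r := by exact_mod_cast (by omega : 0 < r)
  obtain ⟨e, he⟩ : ∃ e : ℝ, e = UniformCurves.exponent (UniformCurves.alpha r c 1) r q κ := ⟨_, rfl⟩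
  rw [← he] at hlt hcnt
  obtain ⟨C, hC⟩ := hcnt (r * (r + 1 - e) / 2) (by have := sub_pos.2 hlt; positivity)
  exact Pool.Agent.S821.Coeffs.coeffs_law hr E (s := (r : ℝ) * e + r * (r + 1 - e) / 2) (C := C)
    (by nlinarith [mul_pos hr0 (sub_pos.2 hlt)]) (fun B hB => hC B hB) hF U

end Pool.Agent.Results.MP_651af7_nt.MultiplicativeCoefficients
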