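import Mathlib
import Pool.Agent.Y734.B.Main
import Pool.Agent.Y734.Fin2
import Pool.Agent.Y734.USST.Main
import Pool.Agent.Y734.BR2.Main
import Pool.Agent.Y734.HYP2.Main
import Pool.Agent.Y734.GROW.Main
import Pool.Agent.Y734.DIM.Main
import Pool.Agent.TH551.SU.Sst

/-!
# Quadratic points of the plane: the inequality with constant six and an explicit exceptional set

`X = ℙ²` over `ℚ`, `D` is the sum of `q` lines over `ℚ` in general position, `S` a finite set of places
and `r = 2`. There is a finite set of lines, each of which passes through at least three of the double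
points of `D`, such that for every finite set `S` of places and every `ε > 0` all points `x` of degree
at most two outside of `D` and of these lines satisfy

`∑_{v ∈ S} λ_{D,v}(x) ≤ (6 + ε) h(x) + C`.

The exceptional lines do not depend on `S` and `ε`. As `d(x) ≤ 2 h(x) + O(1)` for points of degree at
most two and `K_X = -3 H`, Vojta's conjecture implies the inequality with `5` instead of `6`. The
subspace theorem for the points of degree two gives constants larger than `6` (`15/2`, Levin), with an
exceptional set which depends on `S` and `ε`.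

The proof is the one of the library `Pool.Agent.Y734` (helper734 and others): the symmetric matrix
`M = x x'ᵀ + x' xᵀ`, `x'` the conjugate of `x`, is rational and has determinant zero, and versions of
the subspace theorem for the linear spaces and the hypersurfaces in which infinitely many of these
matrices are contained are applied.
-/

set_option autoImplicit false

namespace Pool.Agent.Results.MP_651af7_nt.QuadraticPlaneUniform

open NumberField IsDedekindDomain

variable {L : Type} [Field L] [NumberField L] {n : ℕ}

/-- The local Weil function of the divisor `F = 0`, `F` a form of degree `d` over `ℚ`, at the point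
with homogeneous coordinates `x` over `L`, for the absolute value `a` of `L`. -/
noncomputable def weil (a : L → ℝ) (F : MvPolynomial (Fin (n + 1)) ℚ) (d : ℕ)
    (x : Fin (n + 1) → L) : ℝ :=
  Real.log ((⨆ j, a (x j)) ^ d / a (MvPolynomial.aeval x F))

/-- The proximity function `∑_{v ∈ S} λ_{D,v}(x)`, with absolute normalisation, where `S` consists
of the archimedean place of `ℚ` and of the primes in `S`: the sum over all infinite places of `L`
and over the primes of `L` above the primes in `S`, divided by `[L : ℚ]`. -/
noncomputable def proximity (S : Finset ℕ) (F : MvPolynomial (Fin (n + 1)) ℚ) (d : ℕ)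
    (x : Fin (n + 1) → L) : ℝ :=
  ((∑ w : InfinitePlace L, w.mult * weil w F d x) +
    ∑ᶠ v ∈ {v : HeightOneSpectrum (𝓞 L) | ∃ p ∈ S, (p : 𝓞 L) ∈ v.asIdeal},
      weil (FinitePlace.mk v) F d x) / Module.finrank ℚ L

/-- The absolute logarithmic height. -/
noncomputable def height (x : Fin (n + 1) → L) : ℝ :=
  Height.logHeight x / Module.finrank ℚ L

/-- The linear form with coefficients `l`. -/
noncomputable def lin (l : Fin (n + 1) → ℚ) : MvPolynomial (Fin (n + 1)) ℚ :=
  ∑ j, MvPolynomial.C (l j) * MvPolynomial.X j

/-- The pairs `i < j` for which the common point of the lines `lin (H i) = 0`, `lin (H j) = 0` is on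
the line `lin ℓ = 0`. If the lines `lin (H i) = 0` are in general position then the common points are
different for different pairs. -/
def doublePoints {q : ℕ} (H : Fin q → Fin 3 → ℚ) (ℓ : Fin 3 → ℚ) : Finset (Fin q × Fin q) :=
  Finset.univ.filter fun p => p.1 < p.2 ∧ Matrix.det (Matrix.of ![H p.1, H p.2, ℓ]) = 0

/-- Let `D` be the sum of `q` lines `lin (H i) = 0` of the plane over `ℚ`, any three of which have no
common point. There is a finite set `Λ` of lines over `ℚ`, each of which contains at least three double
points of `D`, such that for every finite set `S` of primes and every `ε > 0` there is `C` such that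
`∑_{v ∈ S ∪ {∞}} λ_{D,v}(x) ≤ (6 + ε) h(x) + C` for all points `x` of degree at most two outside of `D`
and of the lines in `Λ`. -/
theorem result (q : ℕ) (H : Fin q → Fin 3 → ℚ)
    (hH : ∀ i j k : Fin q, i ≠ j → i ≠ k → j ≠ k → LinearIndependent ℚ ![H i, H j, H k]) :
    ∃ Λ : Finset (Fin 3 → ℚ), (∀ ℓ ∈ Λ, ℓ ≠ 0 ∧ 3 ≤ (doublePoints H ℓ).card) ∧
      ∀ S : Finset ℕ, (∀ p ∈ S, p.Prime) → ∀ ε : ℝ, 0 < ε →
        ∃ C : ℝ, ∀ (L : Type) [Field L] [NumberField L], Module.finrank ℚ L ≤ 2 →
          ∀ x : Fin 3 → L, x ≠ 0 → MvPolynomial.aeval x (∏ i, lin (n := 2) (H i)) ≠ 0 →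
            (∀ ℓ ∈ Λ, MvPolynomial.aeval x (lin (n := 2) ℓ) ≠ 0) →
              proximity (n := 2) S (∏ i, lin (H i)) q x ≤ (6 + ε) * height (n := 2) x + C := by
  have habs : Pool.Agent.Y734.B.AbsStmt2 :=
    Pool.Agent.Y734.B.abs2 Pool.Agent.Y734.GROW.grow Pool.Agent.Y734.DIM.dim
      Pool.Agent.Y734.DIM.dim3
  have hyp : Pool.Agent.Y734.B.HypStmt2 :=
    Pool.Agent.Y734.HYP2.hyp2 (Pool.Agent.Y734.USST.usst Pool.Agent.TH551.SU.sst) habs
  exact Pool.Agent.Y734.B.top_of2 Pool.Agent.Y734.BR2.br2 hyp q H hH

end Pool.Agent.Results.MP_651af7_nt.QuadraticPlaneUniform
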