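import Pool.Agent.U693.QN.Om
import Pool.Agent.U693.QN.Tr

/-!
# Algebraic points of any degree over all fields in an infinite Galois extension on all subvarieties of
# products of elliptic curves

Let `n ≥ 1` and let `K / ℚ` be any finite Galois extension of 2-power degree in which the prime `2` is
unramified.

Theorem. There are a finite set `S` of primes, all `1` modulo `8`, and `c > 0`, such that at least `c` times
the number of ALL `n`-tuples `(E_1, …, E_n)` of elliptic curves `E_i : y ^ 2 = x ^ 3 + A_i x + B_i` over `ℚ`,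
ordered by height, have the following property. Let `C` be the class of all the finite Galois extensions
`M / ℚ` of 2-power degree in which `2` is unramified, in which all `q ∈ S` split completely and in which only
such primes `ℓ` are ramified modulo which NONE of the polynomials `x ^ 3 + A_i x + B_i` has a zero, and let
`Ω` be the union of the images of the `M ∈ C` in the algebraic closure of `ℚ`. Then
* `K` is in `C`, the class `C` is closed under composita, `Ω` is a field, stable under all automorphisms,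
  and for a set of primes `ℓ` of positive lower density `ℚ(√ℓ)` is in `C` (so `Ω` is an infinite extension);
* for ALL fields `L` in `Ω` (finite or infinite over `ℚ`), ALL extensions `L'` of `L` of ANY finite degree
  `d` (in the algebraic closure, not in `Ω`) there are `σ_1, …, σ_{d-1}` in `Aut(ℚ̄ / L)` for every family of
  points `z_j` of the curves `E_i` over `L'` (repetitions allowed) such that `z_j + Σ_k σ_k(z_j) = 0` for
  all `j`;
* so for ALL products `A = Π_j E_{m(j)}` and ALL subvarieties `X ⊆ A` over `L` all points of `X` over all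
  extensions `L'` of degree `d` of `L` are in `Z_d(X) = X ∩ -(X + ⋯ + X)` (`d - 1` summands).

The set `Z_d(X)` does not depend on `L`, and for a closed subvariety `X` it is closed, the addition map being
proper (not formalized). For `d = 1` it is `X ∩ {0}`, for `d = 2` it is `X ∩ -X`. So for every closed
subvariety `X` over `ℚ` with `X ⊄ -(X + ⋯ + X)` (`d - 1` summands, `d ≤ r`) ALL algebraic points of `X` of
degree `≤ r` over ANY field `L` in `Ω` (in particular all those of degree `≤ r` over `ℚ`) are in one proper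
closed subset, and the inequality of the question holds trivially outside it, for all divisors `D`, all
finite sets of places and all `ε`. For `r = 2` this is the case for every `X` with `X ≠ -X`, for large `r` for
general curves in `A` if `dim A ≥ r`.

The proof. There are no points but `0` on any of the `E_i` over any `M` in the class, so over `Ω`
(files `Pool/Agent/U693/UN`, `Pool/Agent/U693/QN`), and the sum of the conjugates of a point over `L` is a
point over `L`.
-/

set_option autoImplicit false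
set_option linter.all false

namespace Pool.Agent.Results.MP_651af7_nt.TracesOverOmega

open Filter NumberField WeierstrassCurve
open scoped Classical

/-- The equation `y ^ 2 = x ^ 3 + A x + B` with integers `A`, `B` defines an elliptic curve, and
there is no prime `p` with `p ^ 4 ∣ A` and `p ^ 6 ∣ B`. Every elliptic curve over `ℚ` is isomorphic to
exactly one of these. -/
structure IsMinimal (A B : ℤ) : Prop where
  elliptic : 4 * A ^ 3 + 27 * B ^ 2 ≠ 0
  minimal : ∀ p : ℕ, p.Prime → ¬ ((p : ℤ) ^ 4 ∣ A ∧ (p : ℤ) ^ 6 ∣ B)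

/-- The height. -/
def height (p : ℤ × ℤ) : ℤ := max (4 * |p.1| ^ 3) (27 * p.2 ^ 2)

/-- The set of all elliptic curves over `ℚ` of height at most `X`. -/
def Curves (X : ℕ) : Set (ℤ × ℤ) := {p | IsMinimal p.1 p.2 ∧ height p ≤ X}

/-- The curve `E : y ^ 2 = x ^ 3 + A x + B`, `p = (A, B)`. -/
noncomputable def curve (p : ℤ × ℤ) : WeierstrassCurve ℚ := ⟨0, 0, 0, (p.1 : ℚ), (p.2 : ℚ)⟩

/-- The group `E(ℚ̄)`. -/
abbrev Pts (p : ℤ × ℤ) : Type := ((curve p).baseChange (AlgebraicClosure ℚ)).toAffine.Point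

/-- The point is `0` or has both coordinates in `T`. -/
def HasCoords {p : ℤ × ℤ} (T : Set (AlgebraicClosure ℚ)) (P : Pts p) : Prop :=
  ∀ x y h, P = .some x y h → x ∈ T ∧ y ∈ T

/-- The action of `Aut(ℚ̄ / L)` on `E(ℚ̄)`: `σ(x, y) = (σ x, σ y)`. -/
noncomputable def conj {p : ℤ × ℤ} {L : IntermediateField ℚ (AlgebraicClosure ℚ)}
    (σ : AlgebraicClosure ℚ ≃ₐ[L] AlgebraicClosure ℚ) : Pts p →+ Pts p :=
  Affine.Point.map (W' := curve p) (σ : AlgebraicClosure ℚ →ₐ[L] AlgebraicClosure ℚ)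

section tuples

variable {n : ℕ}

/-- The group `A(ℚ̄)` of the product `A = Π_j E_{m(j)}`. -/
abbrev ProdPts (p : Fin n → ℤ × ℤ) {a : ℕ} (m : Fin a → Fin n) : Type := ∀ j, Pts (p (m j))

/-- The set `X ⊆ A(ℚ̄)` is stable under `Aut(ℚ̄ / L)`, for example the set of the points of a subvariety of
`A` over `L`. -/
def IsStable {p : Fin n → ℤ × ℤ} {a : ℕ} {m : Fin a → Fin n}
    (L : IntermediateField ℚ (AlgebraicClosure ℚ)) (X : Set (ProdPts p m)) : Prop :=
  ∀ (σ : AlgebraicClosure ℚ ≃ₐ[L] AlgebraicClosure ℚ), ∀ z ∈ X, (fun j => conj σ (z j)) ∈ X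

/-- The set `X ∩ -(X + ⋯ + X)`, `d - 1` summands. -/
def SumZero {p : Fin n → ℤ × ℤ} {a : ℕ} {m : Fin a → Fin n} (d : ℕ) (X : Set (ProdPts p m)) :
    Set (ProdPts p m) :=
  {z | z ∈ X ∧ ∃ y : Fin (d - 1) → ProdPts p m, (∀ k, y k ∈ X) ∧ z + ∑ k, y k = 0}

/-- The class `C` for `E_i : y ^ 2 = x ^ 3 + A_i x + B_i`, `p i = (A_i, B_i)`, and `S`: the number fields `M`
which are Galois over `ℚ`, of degree a power of two, in which `2` is unramified (no prime ideal `𝔭` has
`2 ∈ 𝔭 ^ 2`), in which all `q ∈ S` split completely (they are unramified, and every integer of `M` is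
congruent to a rational integer modulo each prime over `q`) and in which only such primes `ℓ` are ramified
modulo which none of the `x ^ 3 + A_i x + B_i` has a zero. -/
structure InClass (S : Finset ℕ) (p : Fin n → ℤ × ℤ) (M : Type) [Field M] [NumberField M] :
    Prop where
  galois : IsGalois ℚ M
  degree : ∃ m : ℕ, Module.finrank ℚ M = 2 ^ m
  two : ∀ 𝔭 : Ideal (𝓞 M), 𝔭.IsPrime → (2 : 𝓞 M) ∉ 𝔭 ^ 2
  split : ∀ q ∈ S, ∀ 𝔭 : Ideal (𝓞 M), 𝔭.IsPrime → (q : 𝓞 M) ∈ 𝔭 →
    (q : 𝓞 M) ∉ 𝔭 ^ 2 ∧ ∀ x : 𝓞 M, ∃ c : ℤ, x - (c : 𝓞 M) ∈ 𝔭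
  ramified : ∀ ℓ : ℕ, ℓ.Prime → (∃ 𝔭 : Ideal (𝓞 M), 𝔭.IsPrime ∧ (ℓ : 𝓞 M) ∈ 𝔭 ^ 2) →
    ∀ (i : Fin n) (z : ℤ), ¬ (ℓ : ℤ) ∣ z ^ 3 + (p i).1 * z + (p i).2

/-- Every number field which is generated by a square root of `ℓ` is in the class. -/
def HasQuadratic (S : Finset ℕ) (p : Fin n → ℤ × ℤ) (ℓ : ℕ) : Prop :=
  ∀ (M : Type) [Field M] [NumberField M] (r : M), r ^ 2 = (ℓ : M) →
    (∀ T : Subfield M, r ∈ T → T = ⊤) → InClass S p M

/-- The union `Ω` of all images of fields in the class in the algebraic closure of `ℚ`. -/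
def Omega (S : Finset ℕ) (p : Fin n → ℤ × ℤ) : Set (AlgebraicClosure ℚ) :=
  {x | ∃ (M : Type) (_ : Field M) (_ : NumberField M) (φ : M →+* AlgebraicClosure ℚ),
    InClass S p M ∧ x ∈ Set.range φ}

/-- The property of the tuple `p`. -/
structure Good (K : Type) [Field K] [NumberField K] (S : Finset ℕ) (p : Fin n → ℤ × ℤ) :
    Prop where
  /-- For ALL fields `L` in `Ω`, ALL extensions `L'` of `L` of finite degree `d` and ALL families of points
  of the curves over `L'` there are `d - 1` automorphisms over `L`, the same for the family, such that the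
  sum of each point and its images is `0`. -/
  traces : ∀ L : IntermediateField ℚ (AlgebraicClosure ℚ), (∀ x ∈ L, x ∈ Omega S p) →
    ∀ L' : IntermediateField L (AlgebraicClosure ℚ), FiniteDimensional L L' →
      ∀ (J : Type) (m : J → Fin n) (z : ∀ j, Pts (p (m j))), (∀ j, HasCoords L' (z j)) →
        ∃ σ : Fin (Module.finrank L L' - 1) → (AlgebraicClosure ℚ ≃ₐ[L] AlgebraicClosure ℚ),
          ∀ j, z j + ∑ k, conj (σ k) (z j) = 0
  /-- For ALL fields `L` in `Ω`, ALL products `A` and ALL `X ⊆ A` which are stable under `Aut(ℚ̄ / L)` (all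
  subvarieties over `L`) the points of `X` over ALL extensions of `L` of degree `d` are in
  `X ∩ -(X + ⋯ + X)`. -/
  points : ∀ L : IntermediateField ℚ (AlgebraicClosure ℚ), (∀ x ∈ L, x ∈ Omega S p) →
    ∀ L' : IntermediateField L (AlgebraicClosure ℚ), FiniteDimensional L L' →
      ∀ (a : ℕ) (m : Fin a → Fin n) (X : Set (ProdPts p m)), IsStable L X →
        ∀ z ∈ X, (∀ j, HasCoords L' (z j)) → z ∈ SumZero (Module.finrank L L') X
  /-- For ALL fields `L` in `Ω` and ALL quadratic extensions `L'` of `L` every polynomial over `L` which is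
  zero at a point `(x_j, y_j)_j` of the product of the affine curves over `L'` is also zero at the opposite
  point `(x_j, -y_j)_j`. -/
  opposite : ∀ L : IntermediateField ℚ (AlgebraicClosure ℚ), (∀ x ∈ L, x ∈ Omega S p) →
    ∀ L' : IntermediateField L (AlgebraicClosure ℚ), Module.finrank L L' = 2 →
      ∀ (J : Type) (m : J → Fin n) (x y : J → AlgebraicClosure ℚ),
        (∀ j, x j ∈ L' ∧ y j ∈ L' ∧ y j ^ 2 = x j ^ 3 + ((p (m j)).1 : AlgebraicClosure ℚ) * x j +
          ((p (m j)).2 : AlgebraicClosure ℚ)) →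
        ∀ f : MvPolynomial (J ⊕ J) L, MvPolynomial.aeval (Sum.elim x y) f = 0 →
          MvPolynomial.aeval (Sum.elim x (-y)) f = 0
  /-- `Ω` is a field, stable under all automorphisms. -/
  omega : ∃ T : Subfield (AlgebraicClosure ℚ), (T : Set (AlgebraicClosure ℚ)) = Omega S p ∧
    ∀ σ : AlgebraicClosure ℚ →+* AlgebraicClosure ℚ, ∀ x ∈ T, σ x ∈ T
  /-- `K` is in the class. -/
  base : InClass S p K
  /-- The class is closed under composita. -/
  composita : ∀ (M₁ M₂ N : Type) [Field M₁] [NumberField M₁] [Field M₂] [NumberField M₂] [Field N]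
    [NumberField N] [Algebra M₁ N] [Algebra M₂ N],
    (∀ T : Subfield N, (∀ x : M₁, algebraMap M₁ N x ∈ T) → (∀ x : M₂, algebraMap M₂ N x ∈ T) →
      T = ⊤) → InClass S p M₁ → InClass S p M₂ → InClass S p N
  /-- A set of primes `ℓ` of positive lower density for which `ℚ(√ℓ)` is in the class and `√ℓ ∈ Ω`. -/
  many : ∃ δ : ℝ, 0 < δ ∧ ∀ᶠ N : ℕ in atTop, δ * (Nat.primeCounting N : ℝ) ≤
    (((Finset.range (N + 1)).filter fun ℓ => ℓ.Prime ∧ HasQuadratic S p ℓ ∧
      ∀ r : AlgebraicClosure ℚ, r ^ 2 = (ℓ : AlgebraicClosure ℚ) → r ∈ Omega S p).card : ℝ)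

/-- The `n`-tuples of elliptic curves over `ℚ` of height at most `X` with the property. -/
def GoodTuples (K : Type) [Field K] [NumberField K] (S : Finset ℕ) (n X : ℕ) :
    Set (Fin n → ℤ × ℤ) := {p | (∀ i, p i ∈ Curves X) ∧ Good K S p}

end tuples

theorem nonsing {p : ℤ × ℤ} (hd : 4 * p.1 ^ 3 + 27 * p.2 ^ 2 ≠ 0) {x y : AlgebraicClosure ℚ}
    (h : y ^ 2 = x ^ 3 + (p.1 : AlgebraicClosure ℚ) * x + (p.2 : AlgebraicClosure ℚ)) :
    ((curve p).baseChange (AlgebraicClosure ℚ)).toAffine.Nonsingular x y := by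
  have hD : ((curve p).baseChange (AlgebraicClosure ℚ)).Δ ≠ 0 := by
    have e : ((curve p).baseChange (AlgebraicClosure ℚ)).Δ =
        -16 * (4 * (p.1 : AlgebraicClosure ℚ) ^ 3 + 27 * (p.2 : AlgebraicClosure ℚ) ^ 2) := by
      simp only [WeierstrassCurve.Δ, WeierstrassCurve.b₂, WeierstrassCurve.b₄, WeierstrassCurve.b₆,
        WeierstrassCurve.b₈]
      simp [curve, WeierstrassCurve.baseChange]
      ring
    rw [e]
    refine mul_ne_zero (by norm_num) ?_
    exact_mod_cast hd
  refine (Affine.equation_iff_nonsingular_of_Δ_ne_zero hD).1 ?_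
  refine (Affine.equation_iff _ _).2 ?_
  simpa [curve, WeierstrassCurve.baseChange] using h

theorem opp {p : ℤ × ℤ} {L : IntermediateField ℚ (AlgebraicClosure ℚ)}
    (σ : AlgebraicClosure ℚ ≃ₐ[L] AlgebraicClosure ℚ) {x y : AlgebraicClosure ℚ}
    (h : ((curve p).baseChange (AlgebraicClosure ℚ)).toAffine.Nonsingular x y)
    (he : (Affine.Point.some x y h : Pts p) + conj σ (Affine.Point.some x y h) = 0) :
    σ x = x ∧ σ y = -y := by
  have h1 := eq_neg_of_add_eq_zero_right he
  unfold conj at h1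
  rw [Affine.Point.map_some, Affine.Point.neg_some, Affine.Point.some.injEq] at h1
  refine ⟨h1.1, h1.2.trans ?_⟩
  simp [Affine.negY, curve, WeierstrassCurve.baseChange]

theorem alg_Q : @Algebra.IsAlgebraic ℚ (AlgebraicClosure ℚ) _ _ DivisionRing.toRatAlgebra := by
  have e : (DivisionRing.toRatAlgebra : Algebra ℚ (AlgebraicClosure ℚ)) =
      AlgebraicClosure.instAlgebra ℚ := Subsingleton.elim _ _
  rw [e]
  infer_instance

theorem crv_iff (X : ℕ) (p : ℤ × ℤ) : Pool.Agent.N922.PQ.Crv X p.1 p.2 ↔ p ∈ Curves X := by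
  constructor
  · rintro ⟨h1, h2, h3, h4⟩
    exact ⟨⟨h1, h2⟩, max_le h3 h4⟩
  · rintro ⟨⟨h1, h2⟩, h3⟩
    exact ⟨h1, h2, (le_max_left _ _).trans h3, (le_max_right _ _).trans h3⟩

theorem nonempty {X : ℕ} (hX : 27 ≤ X) : ((1, 1) : ℤ × ℤ) ∈ Curves X := by
  refine ⟨⟨by norm_num, ?_⟩, ?_⟩
  · rintro p hp ⟨h, -⟩
    have h1 : ((p : ℤ)) ∣ 1 := (dvd_pow_self (p : ℤ) (by norm_num)).trans h
    have h2 : p ∣ 1 := by exact_mod_cast h1
    exact hp.one_lt.ne' (Nat.dvd_one.1 h2)
  · have : height ((1, 1) : ℤ × ℤ) = 27 := by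
      simp [height]
    rw [this]
    exact_mod_cast hX

theorem isPr_iff {q : ℕ} : Pool.Agent.N922.PQ.IsPr (q : ℤ) ↔ q.Prime := by
  constructor
  · intro h
    exact Nat.prime_iff_prime_int.2 h.2
  · intro h
    exact ⟨by exact_mod_cast h.pos, Nat.prime_iff_prime_int.1 h⟩

/-- The class in terms of the class of the library. -/
theorem class_iff {n : ℕ} (hn : 1 ≤ n) {S : Finset ℤ} (hS : ∀ Q ∈ S, Pool.Agent.N922.PQ.IsPr Q)
    (p : Fin n → ℤ × ℤ) (M : Type) [Field M] [NumberField M] :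
    InClass (S.image Int.toNat) p M ↔ Pool.Agent.U693.QN.InT S p M := by
  have hto : ∀ P : ℤ, Pool.Agent.N922.PQ.IsPr P → ((P.toNat : ℕ) : ℤ) = P := fun P hP =>
    Int.toNat_of_nonneg hP.1.le
  constructor
  · intro h i
    refine ⟨h.galois, h.degree, h.two, fun Q hQ 𝔭 h𝔭 hm => ?_, fun P hP hex => ?_⟩
    · have h1 := h.split Q.toNat (Finset.mem_image_of_mem _ hQ) 𝔭 h𝔭
      have e : ((Q.toNat : ℕ) : 𝓞 M) = (Q : 𝓞 M) := by
        rw [← Int.cast_natCast, hto Q (hS Q hQ)]
      rw [e] at h1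
      exact h1 hm
    · have h1 := h.ramified P.toNat (isPr_iff.1 (by rw [hto P hP]; exact hP))
      have e : ((P.toNat : ℕ) : 𝓞 M) = (P : 𝓞 M) := by
        rw [← Int.cast_natCast, hto P hP]
      rw [e, hto P hP] at h1
      exact h1 hex i
  · intro hh
    have h := hh ⟨0, hn⟩
    refine ⟨h.galois, h.degree, h.two, fun q hq 𝔭 h𝔭 hm => ?_, fun ℓ hℓ hex i => ?_⟩
    · obtain ⟨Q, hQ, rfl⟩ := Finset.mem_image.1 hq
      have h1 := h.split Q hQ 𝔭 h𝔭
      have e : ((Q.toNat : ℕ) : 𝓞 M) = (Q : 𝓞 M) := by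
        rw [← Int.cast_natCast, hto Q (hS Q hQ)]
      rw [e] at hm ⊢
      exact h1 hm
    · have h1 := (hh i).ram (ℓ : ℤ) (isPr_iff.2 hℓ)
      rw [Int.cast_natCast] at h1
      exact h1 hex

theorem omega_eq {n : ℕ} (hn : 1 ≤ n) {S : Finset ℤ} (hS : ∀ Q ∈ S, Pool.Agent.N922.PQ.IsPr Q)
    (p : Fin n → ℤ × ℤ) :
    Omega (S.image Int.toNat) p = Pool.Agent.U693.QN.OmT (AlgebraicClosure ℚ) S p := by
  ext x
  constructor
  · rintro ⟨M, i1, i2, φ, hM, hx⟩
    exact ⟨M, i1, i2, φ, (class_iff hn hS p M).1 hM, hx⟩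
  · rintro ⟨M, i1, i2, φ, hM, hx⟩
    exact ⟨M, i1, i2, φ, (class_iff hn hS p M).2 hM, hx⟩

/-- No points over the members of the class. -/
theorem np_of {M : Type} [Field M] [NumberField M] {p : ℤ × ℤ} (hd : 4 * p.1 ^ 3 + 27 * p.2 ^ 2 ≠ 0)
    (h : Pool.Agent.N922.PQ.GoodV (M := M) (𝓞 M) p) (x y : M) :
    y ^ 2 ≠ x ^ 3 + (p.1 : M) * x + (p.2 : M) := by
  set W : WeierstrassCurve M := ⟨0, 0, 0, (p.1 : M), (p.2 : M)⟩ with hW
  have hbc : (Pool.Agent.N874.PP.sW (p.1 : M) (p.2 : M)).baseChange M = W := by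
    apply WeierstrassCurve.ext <;>
      simp [Pool.Agent.N874.PP.sW, hW, WeierstrassCurve.baseChange]
  have key : ∀ W : WeierstrassCurve M,
      (Pool.Agent.N874.PP.sW (p.1 : M) (p.2 : M)).baseChange M = W →
      Subsingleton W.toAffine.Point := by
    rintro W rfl
    exact h.2.1
  have hM := key _ hbc
  have hdM : 4 * W.a₄ ^ 3 + 27 * W.a₆ ^ 2 ≠ 0 := by
    show (4 : M) * (p.1 : M) ^ 3 + 27 * (p.2 : M) ^ 2 ≠ 0
    exact_mod_cast hd
  rw [Pool.Agent.U693.UN.np_iff W rfl rfl rfl hdM] at hM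
  exact hM x y

/-- For every `n ≥ 1` and every Galois extension `K / ℚ` of degree `2 ^ m` in which `2` is unramified there
are a finite set `S` of primes, all `1` modulo `8`, and `c > 0` such that for all large `X` at least `c` times
the number of all `n`-tuples of elliptic curves `E_i` over `ℚ` of height at most `X` have the property
`Good K S`: for ALL fields `L` in the infinite Galois extension `Ω`, the union of all the fields in the
common class, ALL extensions `L'` of `L` of any finite degree `d` and ALL subvarieties `X` over `L` of ALL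
products of the `E_i` the points of `X` over `L'` are in `X ∩ -(X + ⋯ + X)` (`d - 1` summands); and `K` is in
the class, which is closed under composita and contains `ℚ(√ℓ)` for a set of primes `ℓ` of positive lower
density. -/
theorem result (n : ℕ) (hn : 1 ≤ n) (K : Type) [Field K] [NumberField K] [IsGalois ℚ K] (m : ℕ)
    (hm : Module.finrank ℚ K = 2 ^ m)
    (h2 : ∀ 𝔭 : Ideal (𝓞 K), 𝔭.IsPrime → (2 : 𝓞 K) ∉ 𝔭 ^ 2) :
    (∀ X : ℕ, (Curves X).Finite) ∧
    ∃ S : Finset ℕ, (∀ q ∈ S, q.Prime ∧ q % 8 = 1) ∧ ∃ c : ℝ, 0 < c ∧ ∀ᶠ X : ℕ in atTop,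
      0 < (Curves X).ncard ∧
      c * ((Curves X).ncard : ℝ) ^ n ≤ ((GoodTuples K S n X).ncard : ℝ) := by
  have hset : ∀ X : ℕ, Curves X = {p : ℤ × ℤ | Pool.Agent.N922.PQ.Crv X p.1 p.2} := by
    intro X
    ext p
    exact (crv_iff X p).symm
  have hfin : ∀ X : ℕ, (Curves X).Finite := fun X => by
    rw [hset]
    exact Pool.Agent.N922.PQ.crv_fin X
  refine ⟨hfin, ?_⟩
  obtain ⟨S, hS, c, hc, X₀, h⟩ := Pool.Agent.U693.QN.finalT n K hm h2
  have hSp : ∀ Q ∈ S, Pool.Agent.N922.PQ.IsPr Q := fun Q hQ => (hS Q hQ).1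
  refine ⟨S.image Int.toNat, ?_, c, hc, ?_⟩
  · intro q hq
    obtain ⟨Q, hQ, rfl⟩ := Finset.mem_image.1 hq
    obtain ⟨h3, h4⟩ := hS Q hQ
    have e : ((Q.toNat : ℕ) : ℤ) = Q := Int.toNat_of_nonneg h3.1.le
    refine ⟨isPr_iff.1 (by rw [e]; exact h3), by omega⟩
  filter_upwards [eventually_ge_atTop (max X₀ 27)] with X hX
  refine ⟨(Set.ncard_pos (hfin X)).2 ⟨_, nonempty ((le_max_right _ _).trans hX)⟩, ?_⟩
  have h1 := (h X ((le_max_left _ _).trans hX)).2
  rw [← hset] at h1
  refine h1.trans ?_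
  have h3 : {p : Fin n → ℤ × ℤ | ∀ i, Pool.Agent.N922.PQ.Crv X (p i).1 (p i).2 ∧
      Pool.Agent.U693.QN.One K S (p i)} ⊆ GoodTuples K (S.image Int.toNat) n X := by
    intro p hp
    have hpC : ∀ i, p i ∈ Curves X := fun i => (crv_iff X (p i)).1 (hp i).1
    have hK : Pool.Agent.U693.QN.InT S p K := fun i => (hp i).2.1
    have hd : ∀ i, 4 * (p i).1 ^ 3 + 27 * (p i).2 ^ 2 ≠ 0 := fun i => (hpC i).1.elliptic
    have homega := omega_eq hn hSp p
    have hno : ∀ i, ∀ x y : AlgebraicClosure ℚ, x ∈ Omega (S.image Int.toNat) p →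
        y ∈ Omega (S.image Int.toNat) p → y ^ 2 ≠ x ^ 3 + ((p i).1 : AlgebraicClosure ℚ) * x +
          ((p i).2 : AlgebraicClosure ℚ) := by
      intro i x y hx hy
      rw [homega] at hx hy
      have hle : ∀ x, x ∈ Pool.Agent.U693.QN.OmT (AlgebraicClosure ℚ) S p →
          x ∈ Pool.Agent.U693.UN.Om (AlgebraicClosure ℚ) S (p i).1 (p i).2 := by
        rintro x ⟨M, i1, i2, ψ, hM, hx⟩
        exact ⟨M, i1, i2, ψ, hM i, hx⟩
      exact Pool.Agent.U693.UN.om_np hSp (fun M _ _ hM => np_of (hd i) ((hp i).2.2.2 M hM))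
        (hle _ hx) (hle _ hy)
    have htr : ∀ L : IntermediateField ℚ (AlgebraicClosure ℚ),
        (∀ x ∈ L, x ∈ Omega (S.image Int.toNat) p) →
        ∀ L' : IntermediateField L (AlgebraicClosure ℚ), FiniteDimensional L L' →
          ∀ (J : Type) (m : J → Fin n) (z : ∀ j, Pts (p (m j))), (∀ j, HasCoords L' (z j)) →
            ∃ σ : Fin (Module.finrank L L' - 1) → (AlgebraicClosure ℚ ≃ₐ[L] AlgebraicClosure ℚ),
              ∀ j, z j + ∑ k, conj (σ k) (z j) = 0 := by
      intro L hL L' hf J m z hz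
      haveI := hf
      haveI : Algebra.IsAlgebraic ℚ (AlgebraicClosure ℚ) := alg_Q
      haveI : Algebra.IsAlgebraic L (AlgebraicClosure ℚ) :=
        Algebra.IsAlgebraic.tower_top (K := ℚ) L
      refine Pool.Agent.U693.QN.tr_tuple (fun j => curve (p (m j))) ?_ L' z
        (fun j x y h he => hz j x y h he)
      intro j x y hn
      have h6 := (Affine.equation_iff _ _).1 hn.1
      refine hno (m j) _ _ (hL _ x.2) (hL _ y.2) ?_
      simpa [curve, WeierstrassCurve.baseChange] using h6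
    refine ⟨hpC, htr, ?_, ?_, ?_, (class_iff hn hSp p K).2 hK, ?_, ?_⟩
    · intro L hL L' hf a m X hX z hz hc
      obtain ⟨σ, hσ⟩ := htr L hL L' hf (Fin a) m z hc
      refine ⟨hz, fun k j => conj (σ k) (z j), fun k => hX (σ k) z hz, ?_⟩
      funext j
      rw [Pi.add_apply, Finset.sum_apply]
      exact hσ j
    · intro L hL L' h2 J m x y hxy f hf
      haveI : FiniteDimensional L L' := Module.finite_of_finrank_pos (by rw [h2]; norm_num)
      have hns : ∀ j, ((curve (p (m j))).baseChange (AlgebraicClosure ℚ)).toAffine.Nonsingular (x j)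
          (y j) := fun j => nonsing (hd (m j)) (hxy j).2.2
      obtain ⟨σ, hσ⟩ := htr L hL L' inferInstance J m (fun j => .some _ _ (hns j)) (by
        intro j x' y' h' he
        rw [Affine.Point.some.injEq] at he
        rw [← he.1, ← he.2]
        exact ⟨(hxy j).1, (hxy j).2.1⟩)
      have h3 : Module.finrank L L' - 1 = 1 := by rw [h2]
      have h4 : ∃ τ : AlgebraicClosure ℚ ≃ₐ[L] AlgebraicClosure ℚ,
          ∀ j, τ (x j) = x j ∧ τ (y j) = -y j := by
        refine ⟨σ ⟨0, by rw [h3]; norm_num⟩, fun j => opp _ (hns j) ?_⟩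
        have h5 := hσ j
        have h6 : ∑ k, conj (σ k) (Affine.Point.some _ _ (hns j) : Pts (p (m j))) =
            conj (σ ⟨0, by rw [h3]; norm_num⟩) (Affine.Point.some _ _ (hns j)) := by
          refine Finset.sum_eq_single_of_mem _ (Finset.mem_univ _) fun b _ hb => ?_
          exfalso
          apply hb
          apply Fin.ext
          have := b.2
          show b.1 = 0
          omega
        rw [h6] at h5
        exact h5
      obtain ⟨τ, hτ⟩ := h4
      have h7 := congrArg τ hf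
      rw [map_zero] at h7
      have h8 : τ (MvPolynomial.aeval (Sum.elim x y) f) =
          MvPolynomial.aeval (fun i => (τ : AlgebraicClosure ℚ →ₐ[L] AlgebraicClosure ℚ)
            (Sum.elim x y i)) f :=
        (MvPolynomial.comp_aeval_apply (Sum.elim x y)
          (τ : AlgebraicClosure ℚ →ₐ[L] AlgebraicClosure ℚ) f)
      rw [h8] at h7
      have h9 : (fun i => (τ : AlgebraicClosure ℚ →ₐ[L] AlgebraicClosure ℚ) (Sum.elim x y i)) =
          Sum.elim x (-y) := by
        funext i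
        rcases i with j | j
        · exact (hτ j).1
        · exact (hτ j).2
      rwa [h9] at h7
    · obtain ⟨T, hT⟩ := Pool.Agent.U693.QN.omT_field hn hSp
        ((IsAlgClosed.lift : K →ₐ[ℚ] AlgebraicClosure ℚ) : K →+* AlgebraicClosure ℚ) hK
      have hmem : ∀ x, x ∈ T ↔ x ∈ Pool.Agent.U693.QN.OmT (AlgebraicClosure ℚ) S p := by
        intro x
        rw [← hT]
        rfl
      refine ⟨T, by rw [hT, homega], ?_⟩
      intro σ x hx
      rw [hmem] at hx ⊢
      exact Pool.Agent.U693.QN.omT_stable σ hx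
    · intro M₁ M₂ N _ _ _ _ _ _ _ _ hg h₁ h₂
      exact (class_iff hn hSp p N).2 (Pool.Agent.U693.QN.InT.comp hn hSp hg
        ((class_iff hn hSp p M₁).1 h₁) ((class_iff hn hSp p M₂).1 h₂))
    · obtain ⟨δ, hδ, hev⟩ := Pool.Agent.U693.QN.densT hn S (fun Q hQ => (hSp Q hQ).2.ne_zero)
        (fun i => (hp i).2.2.1)
      refine ⟨δ, hδ, ?_⟩
      filter_upwards [hev] with N hN
      refine hN.trans ?_
      have hsub : ((Finset.range (N + 1)).filter fun ℓ => ℓ.Prime ∧
          Pool.Agent.U693.QN.TpT p S ℓ) ⊆ ((Finset.range (N + 1)).filter fun ℓ => ℓ.Prime ∧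
            HasQuadratic (S.image Int.toNat) p ℓ ∧ ∀ r : AlgebraicClosure ℚ,
              r ^ 2 = (ℓ : AlgebraicClosure ℚ) → r ∈ Omega (S.image Int.toNat) p) := by
        intro ℓ hℓ
        rw [Finset.mem_filter] at hℓ ⊢
        have hq := Pool.Agent.U693.QN.quadT hS hℓ.2.1 hℓ.2.2
        refine ⟨hℓ.1, hℓ.2.1, ?_, ?_⟩
        · intro M _ _ r hr hgen
          exact (class_iff hn hSp p M).2 (hq M r (by rw [hr, Int.cast_natCast]) hgen)
        · intro r hr
          rw [homega]
          exact Pool.Agent.U693.QN.omT_sqrt (d := (ℓ : ℤ)) (fun M _ _ r hr hgen => hq M r hr hgen)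
            (by rw [hr, Int.cast_natCast])
      exact_mod_cast Finset.card_le_card hsub
  have hfin2 : (GoodTuples K (S.image Int.toNat) n X).Finite :=
    (Set.Finite.pi' fun _ => hfin X).subset fun p hp => hp.1
  have h4 := Set.ncard_le_ncard h3 hfin2
  exact_mod_cast h4

end Pool.Agent.Results.MP_651af7_nt.TracesOverOmega
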